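import Pool.Agent.N718.DC.Stm2

/-!
# Project DC, part AMT3: reindexing
-/

set_option autoImplicit false

namespace Pool.Agent.N284.DC

open Finset Pool.Agent.N718.DC

theorem amt3_ (h : S_AMT) : S_AMT3 := by
  classical
  intro r e
  obtain ⟨C, hC0, hC⟩ := h (r * 3) (fun k => e (finProdFinEquiv.symm k))
  refine ⟨C, hC0, ?_⟩
  intro W M hW hM h2 hp1 hp2 a₀ a₁ α β hαβ γ g s ε hs hε hg hγ
  obtain ⟨H₀, hH₀⟩ := hC W M hW hM h2 hp1 hp2 a₀ a₁ α β hαβ
    (fun k => γ (finProdFinEquiv.symm k)) (fun k => g (finProdFinEquiv.symm k))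
    (fun k => s (finProdFinEquiv.symm k))
    (fun k k' => if (finProdFinEquiv.symm k).1 = (finProdFinEquiv.symm k').1 then
      ε (finProdFinEquiv.symm k).1 (finProdFinEquiv.symm k).2 (finProdFinEquiv.symm k').2 else 1)
    (fun k => hs _) (by
      intro k k'
      beta_reduce
      split_ifs
      · exact hε _ _ _
      · exact Or.inl rfl) (fun k => hg _) (fun k => hγ _)
  refine ⟨H₀, fun H hH => ?_⟩
  have h1 := hH₀ H hH
  have e1 : nc (fun k : Fin (r * 3) => e (finProdFinEquiv.symm k)) = ncI e := by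
    unfold nc ncI
    exact Equiv.sum_comp finProdFinEquiv.symm (fun k => e k + 2)
  rw [e1] at h1
  refine le_trans ?_ h1
  rw [Nat.cast_le]
  refine Finset.card_le_card_of_injOn
    (fun (c : (k : Fin r × Fin 3) → Fin (e k + 2) → ℤ) (k : Fin (r * 3)) =>
      c (finProdFinEquiv.symm k)) ?_ ?_
  · intro c hc
    rw [Finset.mem_coe, Finset.mem_filter] at hc ⊢
    obtain ⟨g1, g2, g3, g4⟩ := hc
    refine ⟨?_, fun k j => g2 _ j, fun k z hz1 hz2 => g3 _ z hz1 hz2, ?_⟩
    · unfold BXI at g1
      unfold BX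
      rw [Fintype.mem_piFinset] at g1 ⊢
      exact fun k => g1 _
    · rintro ⟨x, y, hx, hx0, hy0, hxy1, hxy2, P, hP, hJ⟩
      refine g4 ⟨x, y, hx, hx0, hy0, hxy1, hxy2, fun k => P (finProdFinEquiv k), ?_, ?_⟩
      · intro k
        obtain ⟨k', rfl⟩ := finProdFinEquiv.symm.surjective k
        have e2 : (fun k => P (finProdFinEquiv k)) (finProdFinEquiv.symm k') = P k' :=
          congrArg P (Equiv.apply_symm_apply _ _)
        rw [e2]
        exact hP k'
      · intro i l l' hl
        have hlt : (finProdFinEquiv (i, l) : Fin (r * 3)) < finProdFinEquiv (i, l') := by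
          rw [Fin.lt_def]
          simp only [finProdFinEquiv_apply_val]
          have : (l : ℕ) < l' := hl
          omega
        have h3 := hJ _ _ hlt
        rw [h3]
        simp only [Equiv.symm_apply_apply, if_true]
  · intro c hc c' hc' hcc
    funext k
    obtain ⟨k', rfl⟩ := finProdFinEquiv.symm.surjective k
    exact congrFun hcc k'

end Pool.Agent.N284.DC
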